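import Pool.Agent.MNE.StmtsB

/-!
# Row CNT (MP_d2d93c_nt, squad MNE): counting for fixed exponents
-/

set_option autoImplicit false

namespace Pool.Agent.MNE.H40

open Finset

theorem cnt (hARC : ArcStmt) : CntStmt := by
  intro m θ hm hθ
  obtain ⟨Z0, N0, harc⟩ := hARC m θ hm hθ
  refine ⟨Z0, (((N0 ^ 2 + 1) * (2 * N0 ^ 2 + 1) : ℕ) : ℝ) + (2 * m + 1) * 2 ^ (m ^ 2), ?_⟩
  intro N w z hN hw
  set S : Set (ℕ × ℕ) :=
    {p : ℕ × ℕ | ∃ f : ℕ, 2 ≤ f ∧ (N : ℝ) ^ θ ≤ f ∧ f ≤ N ∧ Near f p.1 p.2 z w} with hS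
  have hsub : S ⊆ ↑(Finset.range (N ^ 2 + 1) ×ˢ Finset.range (2 * N ^ 2 + 1)) := by
    rintro p ⟨f, hf2, -, hfN, hn⟩
    simp only [Finset.coe_product, Finset.coe_range, Set.mem_prod, Set.mem_Iio]
    have h1 := hn.hA'
    have h2 := hn.hW'
    have h3 : f ^ 2 ≤ N ^ 2 := Nat.pow_le_pow_left hfN 2
    omega
  have hfin : S.Finite := (Finset.finite_toSet _).subset hsub
  refine ⟨hfin, ?_⟩
  have hN1 : (1 : ℝ) ≤ N := by exact_mod_cast hN
  have hNpos : (0 : ℝ) < N := by linarith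
  have hm0 : (0 : ℝ) < m := by
    have : 0 < m := by omega
    exact_mod_cast this
  have hone : (1 : ℝ) ≤ (N : ℝ) ^ (8 / m : ℝ) := Real.one_le_rpow hN1 (by positivity)
  have hK : (0 : ℝ) ≤ (2 * m + 1) * 2 ^ (m ^ 2) := by positivity
  have hK' : (0 : ℝ) ≤ (((N0 ^ 2 + 1) * (2 * N0 ^ 2 + 1) : ℕ) : ℝ) := by positivity
  rcases lt_or_ge N N0 with hlt | hge
  · have hcard : S.ncard ≤ (N ^ 2 + 1) * (2 * N ^ 2 + 1) := by
      have := Set.ncard_le_ncard hsub (Finset.finite_toSet _)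
      rw [Set.ncard_coe_finset, Finset.card_product, Finset.card_range, Finset.card_range] at this
      exact this
    have hcard2 : S.ncard ≤ (N0 ^ 2 + 1) * (2 * N0 ^ 2 + 1) := by
      refine hcard.trans ?_
      have h3 : N ^ 2 ≤ N0 ^ 2 := Nat.pow_le_pow_left hlt.le 2
      exact Nat.mul_le_mul (by omega) (by omega)
    have hcard3 : (S.ncard : ℝ) ≤ (((N0 ^ 2 + 1) * (2 * N0 ^ 2 + 1) : ℕ) : ℝ) := by
      exact_mod_cast hcard2
    calc (S.ncard : ℝ) ≤ (((N0 ^ 2 + 1) * (2 * N0 ^ 2 + 1) : ℕ) : ℝ) := hcard3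
      _ ≤ (((N0 ^ 2 + 1) * (2 * N0 ^ 2 + 1) : ℕ) : ℝ) + (2 * m + 1) * 2 ^ (m ^ 2) := by linarith
      _ ≤ _ := le_mul_of_one_le_right (by linarith) hone
  · have hηpos : 0 < (N : ℝ) ^ (-(7 / m : ℝ)) := Real.rpow_pos_of_pos hNpos _
    have hinv : (N : ℝ) ^ (-(7 / m : ℝ)) * (N : ℝ) ^ (7 / m : ℝ) = 1 := by
      rw [← Real.rpow_add hNpos]; simp
    set η : ℝ := (N : ℝ) ^ (-(7 / m : ℝ)) with hη
    have hPpos : 0 < (N : ℝ) ^ (7 / m : ℝ) := Real.rpow_pos_of_pos hNpos _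
    set P : ℝ := (N : ℝ) ^ (7 / m : ℝ) with hP
    -- index function
    let idx : ℕ × ℕ → ℕ := fun p => ⌊Real.log p.1 * P⌋₊
    let E : Finset (ℕ × ℕ) := hfin.toFinset
    have hmem : ∀ p, p ∈ E ↔ p ∈ S := fun p => hfin.mem_toFinset
    have hmaps : ∀ p ∈ E, idx p ∈ Finset.range (⌊2 * Real.log N * P⌋₊ + 1) := by
      intro p hp
      rw [hmem] at hp
      obtain ⟨f, hf2, -, hfN, hn⟩ := hp
      rw [Finset.mem_range, Nat.lt_succ_iff]
      apply Nat.floor_le_floor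
      apply mul_le_mul_of_nonneg_right _ hPpos.le
      have hA1 : 1 ≤ p.1 := by have := hn.hA; omega
      have hA2 : p.1 ≤ N ^ 2 := hn.hA'.trans (Nat.pow_le_pow_left hfN 2)
      have hA1' : (0 : ℝ) < (p.1 : ℝ) := by exact_mod_cast hA1
      have hA2' : (p.1 : ℝ) ≤ (N : ℝ) ^ 2 := by exact_mod_cast hA2
      calc Real.log p.1 ≤ Real.log ((N : ℝ) ^ 2) := Real.log_le_log hA1' hA2'
        _ = 2 * Real.log N := by rw [Real.log_pow]; norm_num
    have hfib : ∀ k ∈ Finset.range (⌊2 * Real.log N * P⌋₊ + 1),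
        (E.filter fun p => idx p = k).card ≤ 2 ^ (m ^ 2) := by
      intro k _
      apply harc N w z hge hw
      · intro p hp
        rw [Finset.mem_filter, hmem] at hp
        exact hp.1
      · intro p hp q hq
        rw [Finset.mem_filter, hmem] at hp hq
        have hposp : 0 ≤ Real.log p.1 * P := by
          obtain ⟨f, hf2, -, hfN, hn⟩ := hp.1
          have hA1 : 1 ≤ p.1 := by have := hn.hA; omega
          have hA1' : (1 : ℝ) ≤ (p.1 : ℝ) := by exact_mod_cast hA1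
          exact mul_nonneg (Real.log_nonneg hA1') hPpos.le
        have hposq : 0 ≤ Real.log q.1 * P := by
          obtain ⟨f, hf2, -, hfN, hn⟩ := hq.1
          have hA1 : 1 ≤ q.1 := by have := hn.hA; omega
          have hA1' : (1 : ℝ) ≤ (q.1 : ℝ) := by exact_mod_cast hA1
          exact mul_nonneg (Real.log_nonneg hA1') hPpos.le
        have e1 : idx p = idx q := hp.2.trans hq.2.symm
        have p1 := Nat.floor_le hposp
        have p2 := Nat.lt_floor_add_one (Real.log p.1 * P)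
        have q1 := Nat.floor_le hposq
        have q2 := Nat.lt_floor_add_one (Real.log q.1 * P)
        have e2 : ((⌊Real.log p.1 * P⌋₊ : ℕ) : ℝ) = ((⌊Real.log q.1 * P⌋₊ : ℕ) : ℝ) := by
          exact_mod_cast e1
        have habs : |(Real.log p.1 - Real.log q.1) * P| ≤ 1 := by
          rw [abs_le, sub_mul]
          constructor <;> linarith
        rw [abs_mul, abs_of_pos hPpos] at habs
        calc |Real.log p.1 - Real.log q.1|
            = |Real.log p.1 - Real.log q.1| * (η * P) := by rw [hinv, mul_one]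
          _ = η * (|Real.log p.1 - Real.log q.1| * P) := by ring
          _ ≤ η * 1 := mul_le_mul_of_nonneg_left habs hηpos.le
          _ = η := mul_one _
    have hEcard : E.card ≤ 2 ^ (m ^ 2) * (Finset.range (⌊2 * Real.log N * P⌋₊ + 1)).card :=
      Finset.card_le_mul_card_image_of_maps_to hmaps _ hfib
    rw [Finset.card_range] at hEcard
    have hncard : S.ncard = E.card := Set.ncard_eq_toFinset_card S hfin
    have hlogN : 0 ≤ Real.log N := Real.log_nonneg hN1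
    have hfl : ((⌊2 * Real.log N * P⌋₊ : ℕ) : ℝ) ≤ 2 * Real.log N * P :=
      Nat.floor_le (by positivity)
    have hlog : Real.log N ≤ m * (N : ℝ) ^ (1 / m : ℝ) := by
      have := Real.log_le_rpow_div hNpos.le (by positivity : (0 : ℝ) < 1 / m)
      calc Real.log N ≤ (N : ℝ) ^ (1 / m : ℝ) / (1 / m) := this
        _ = m * (N : ℝ) ^ (1 / m : ℝ) := by field_simp
    have hpow : (N : ℝ) ^ (1 / m : ℝ) * P = (N : ℝ) ^ (8 / m : ℝ) := by
      rw [hP, ← Real.rpow_add hNpos]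
      congr 1
      rw [← add_div]; norm_num
    have hkey : 2 * Real.log N * P ≤ 2 * m * (N : ℝ) ^ (8 / m : ℝ) := by
      calc 2 * Real.log N * P ≤ 2 * (m * (N : ℝ) ^ (1 / m : ℝ)) * P := by gcongr
        _ = 2 * m * ((N : ℝ) ^ (1 / m : ℝ) * P) := by ring
        _ = _ := by rw [hpow]
    rw [hncard]
    have hE' : (E.card : ℝ) ≤ 2 ^ (m ^ 2) * ((⌊2 * Real.log N * P⌋₊ : ℕ) + 1) := by
      exact_mod_cast hEcard
    calc (E.card : ℝ) ≤ 2 ^ (m ^ 2) * ((⌊2 * Real.log N * P⌋₊ : ℕ) + 1) := hE'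
      _ ≤ 2 ^ (m ^ 2) * (2 * m * (N : ℝ) ^ (8 / m : ℝ) + (N : ℝ) ^ (8 / m : ℝ)) := by
          apply mul_le_mul_of_nonneg_left _ (by positivity)
          linarith
      _ = ((2 * m + 1) * 2 ^ (m ^ 2)) * (N : ℝ) ^ (8 / m : ℝ) := by ring
      _ ≤ _ := by
          apply mul_le_mul_of_nonneg_right _ (by positivity)
          linarith

end Pool.Agent.MNE.H40
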